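import Mathlib
import Pool.Agent.Helper340.MB.Final

set_option autoImplicit false
set_option linter.unusedVariables false
set_option linter.unusedSectionVars false
set_option linter.unusedSimpArgs false

/-!
The clique game in a situation in which Breaker already owns some edges: if Breaker owns at most
`n ^ 2 / 8` edges and Maker none, then Maker still wins under the usual numerical conditions.
-/

namespace Pool.Agent.N451.Move

open Finset Pool.Agent.Helper340.MB Pool.Agent.Helper340.TwoEdges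

section start
variable {V : Type*} [DecidableEq V] {q n : ℕ} [NeZero n]

lemma fix_card {e : Fin q × Fin n → V} (he : Function.Injective e) (z : Sym2 V) :
    (univ.filter (fun φ : Fin q → Fin n => z ∈ es e univ φ)).card ≤ n ^ (q - 2) := by
  rcases (univ.filter (fun φ : Fin q → Fin n => z ∈ es e univ φ)).eq_empty_or_nonempty with h | h
  · rw [h, card_empty]; exact Nat.zero_le _
  · obtain ⟨φ₀, hφ₀⟩ := h
    rw [mem_filter, mem_es] at hφ₀
    obtain ⟨-, p, hp, hpz⟩ := hφ₀
    have hp12 := (mem_prs.mp hp).2.2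
    let κ : Lv q n := fun i => if i = p.1 ∨ i = p.2 then some (φ₀ i) else none
    have hdom : dom κ = {p.1, p.2} := by
      ext i
      simp only [dom, κ, mem_filter, mem_univ, true_and, mem_insert, mem_singleton]
      split_ifs with h <;> simp [h]
    have hcard : (dom κ).card = 2 := by
      rw [hdom, card_pair hp12.ne]
    have hsub : univ.filter (fun φ : Fin q → Fin n => z ∈ es e univ φ) ⊆ lmm κ := by
      intro φ hφ
      rw [mem_filter, mem_es] at hφ
      obtain ⟨-, p', hp', hp'z⟩ := hφ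
      obtain ⟨rfl, h1, h2⟩ := ed_inj he hp12 (mem_prs.mp hp').2.2 (hpz.trans hp'z.symm)
      unfold lmm
      rw [mem_filter]
      refine ⟨mem_univ _, fun i hi => ?_⟩
      rw [hdom, mem_insert, mem_singleton] at hi
      rcases hi with rfl | rfl
      · simp [fl, κ, h1]
      · simp [fl, κ, h2]
    refine (card_le_card hsub).trans ?_
    rw [card_lmm, hcard]

variable (D : Dat q n V)

lemma bad_card (hq : 2 ≤ q) (B : Finset (Sym2 V)) (hB : 8 * B.card ≤ n ^ 2) :
    8 * (univ.filter (fun φ : Fin q → Fin n => ¬ Disjoint (es D.e univ φ) B)).card ≤ n ^ q := by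
  have h1 : univ.filter (fun φ : Fin q → Fin n => ¬ Disjoint (es D.e univ φ) B) ⊆
      B.biUnion (fun z => univ.filter (fun φ : Fin q → Fin n => z ∈ es D.e univ φ)) := by
    intro φ hφ
    rw [mem_filter, not_disjoint_iff] at hφ
    obtain ⟨-, z, hz, hzB⟩ := hφ
    rw [mem_biUnion]
    exact ⟨z, hzB, by rw [mem_filter]; exact ⟨mem_univ _, hz⟩⟩
  have h2 : (univ.filter (fun φ : Fin q → Fin n => ¬ Disjoint (es D.e univ φ) B)).card ≤
      B.card * n ^ (q - 2) :=
    (card_le_card h1).trans (card_biUnion_le_card_mul _ _ _ fun z _ => fix_card D.he z)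
  calc 8 * (univ.filter (fun φ : Fin q → Fin n => ¬ Disjoint (es D.e univ φ) B)).card
      ≤ 8 * (B.card * n ^ (q - 2)) := Nat.mul_le_mul_left _ h2
    _ = (8 * B.card) * n ^ (q - 2) := by ring
    _ ≤ n ^ 2 * n ^ (q - 2) := Nat.mul_le_mul_right _ hB
    _ = n ^ q := by rw [← pow_add]; congr 1; omega

lemma T_pre (hq : 2 ≤ q) (B : Finset (Sym2 V)) (hB : 8 * B.card ≤ n ^ 2) :
    7 / 8 * Tr q n D.sys.c ≤ D.sys.T ∅ B univ := by
  have hc := D.sys.c_gt
  set P : (Fin q → Fin n) → Prop := fun φ => Disjoint (es D.e univ φ) B with hP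
  have h1 : ∀ φ ∈ univ.filter P, (1 / D.sys.c) ^ (q.choose 2) ≤ D.sys.T1 ∅ B φ := by
    intro φ hφ
    rw [mem_filter] at hφ
    unfold Sys.T1
    have h2 : (D.sys.A φ).card = q.choose 2 := by
      show (es D.e univ φ).card = q.choose 2
      rw [card_es D.he, card_univ, Fintype.card_fin]
    have h0 : pw D.sys.c ∅ B (D.sys.A φ) = (1 / D.sys.c) ^ (q.choose 2) := by
      have hd : Disjoint (D.sys.A φ) B := hφ.2
      unfold pw
      rw [if_pos hd, sdiff_empty, h2]
    rw [h0]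
    have h3 : (1 : ℝ) ≤ Real.exp (D.sys.η * ss D.sys.c ∅ (D.sys.stA φ)) := by
      rw [Real.one_le_exp_iff]
      exact mul_nonneg D.sys.η_pos.le (ss_nonneg D.sys.c_gt _ _)
    have h4 : (0 : ℝ) ≤ (1 / D.sys.c) ^ (q.choose 2) := by
      have := D.sys.c_gt
      positivity
    nlinarith
  have h2 : D.sys.T ∅ B univ ≥ ∑ φ ∈ univ.filter P, D.sys.T1 ∅ B φ := by
    unfold Sys.T
    exact sum_le_sum_of_subset_of_nonneg (filter_subset _ _) fun φ _ _ => D.sys.T1_nonneg _ _ _
  have h3 := sum_le_sum h1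
  rw [sum_const, nsmul_eq_mul] at h3
  have h4 : (univ.filter P).card + (univ.filter (fun φ => ¬ P φ)).card = n ^ q := by
    rw [card_filter_add_card_filter_not, card_univ, Fintype.card_fun, Fintype.card_fin,
      Fintype.card_fin]
  have h5 := bad_card D hq B hB
  have h6 : 7 * n ^ q ≤ 8 * (univ.filter P).card := by
    have : 8 * (univ.filter (fun φ => ¬ P φ)).card ≤ n ^ q := h5
    omega
  have h7 : (7 : ℝ) * (n : ℝ) ^ q ≤ 8 * ((univ.filter P).card : ℝ) := by exact_mod_cast h6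
  have h8 : (0 : ℝ) ≤ (1 / D.sys.c) ^ (q.choose 2) := by positivity
  refine le_trans ?_ (h3.trans h2)
  unfold Tr
  have h9 := mul_le_mul_of_nonneg_right h7 h8
  linarith

lemma G_pre (B : Finset (Sym2 V)) : D.sys.G ∅ B univ ≤ D.sys.G ∅ ∅ univ := by
  have hc := D.sys.c_gt
  have hpw : ∀ S : Finset (Sym2 V), pw D.sys.c ∅ B S ≤ pw D.sys.c ∅ ∅ S := by
    intro S
    unfold pw
    rw [if_pos (disjoint_empty_right S)]
    split_ifs
    · exact le_refl _
    · positivity
  unfold Sys.G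
  refine sum_le_sum fun κ _ => ?_
  unfold Sys.g
  apply mul_le_mul_of_nonneg_left _ (D.sys.lam_nonneg κ)
  have hw : D.sys.w ∅ B κ ≤ D.sys.w ∅ ∅ κ := by
    unfold Sys.w
    exact mul_le_mul_of_nonneg_right (hpw _) (Real.exp_pos _).le
  have hV : D.sys.V ∅ B univ κ ≤ D.sys.V ∅ ∅ univ κ := by
    unfold Sys.V
    refine sum_le_sum fun φ _ => ?_
    unfold Sys.vv
    exact hpw _
  have hV0 : 0 ≤ D.sys.V ∅ B univ κ := D.sys.V_nonneg _ _ _ _
  apply mul_le_mul hw _ (sq_nonneg _) (D.sys.w_nonneg _ _ _)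
  exact pow_le_pow_left₀ hV0 hV 2

/-- Maker wins the `(m:b)` game on a board containing all edges of the `q`-partite graph, even if
Breaker already owns at most `n ^ 2 / 8` edges, as soon as the numerical conditions hold. -/
theorem start_forces_pre (Bd : Finset (Sym2 V)) (goal : Finset (Sym2 V) → Prop)
    (hA : ∀ φ, es D.e univ φ ⊆ Bd) (hgoal : ∀ φ M, es D.e univ φ ⊆ M → goal M)
    (l3 R : ℝ) (hl : D.l = fun i => l3 * R ^ (i - 3)) (hl3 : 0 < l3) (hR : 1 ≤ R)
    (hq : 5 ≤ q)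
    (hR1 : D.sys.C3 * (3 * (1 / R)) ≤ D.η / 4)
    (hR2 : D.sys.C3 * (3 * (1 / R)) ≤ (D.sys.c - 1) * (D.η / 4))
    (h3 : l3 * R ^ (q - 3) ≤ 1)
    (h4 : 4 * ((Bd.card : ℝ) * ((D.sys.C1 + D.sys.C2) * (D.sys.NN ^ 2
      * Real.exp (3 * (D.η * q))))) ≤ l3 * Tr q n D.sys.c)
    (h5 : Tr q n D.sys.c * (l3 * ∑ i ∈ Ico 3 q, (q.choose i : ℝ)
      * R ^ (i - 3) * (D.sys.c ^ (i.choose 2) / (n : ℝ) ^ i)) ≤ 1 / 2)
    (B : Finset (Sym2 V)) (hB : 8 * B.card ≤ n ^ 2) :
    Forces D.m D.b Bd goal ∅ B := by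
  have hc := D.sys.c_gt
  have hT := Tr_pos (q := q) (n := n) hc
  have hR0 : 0 < R := by linarith
  have hC1 : 0 ≤ D.sys.C1 := by unfold Sys.C1; have := D.sys.bpos; linarith
  have hC2 := D.sys.C2_nonneg
  set Cap := Real.exp (3 * (D.η * q)) / l3 with hCap
  have hCap0 : 0 ≤ Cap := by positivity
  set loss := (D.sys.C1 + D.sys.C2) * (D.sys.NN ^ 2 * Cap) with hloss
  have hloss0 : 0 ≤ loss := by positivity
  have hchain := D.chain (ρ := 1 / R) (by positivity)
    (by
      intro i j hi hij hj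
      rw [hl]
      show l3 * R ^ (i - 3) ≤ 1 / R * (l3 * R ^ (j - 3))
      have h6 : R ^ (i - 3) * R ≤ R ^ (j - 3) := by
        rw [← pow_succ]
        exact pow_le_pow_right₀ hR (by omega)
      have h7 := mul_le_mul_of_nonneg_left h6 hl3.le
      rw [one_div, ← mul_assoc, mul_comm R⁻¹ l3, mul_assoc]
      have h8 : R ^ (i - 3) ≤ R⁻¹ * R ^ (j - 3) := by
        rw [inv_mul_eq_div, le_div_iff₀ hR0]
        exact h6
      exact mul_le_mul_of_nonneg_left h8 hl3.le)
    (by
      intro i hi hiq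
      rw [hl]
      show l3 * R ^ (i - 3) ≤ 1 / R
      rw [le_div_iff₀ hR0, mul_assoc, ← pow_succ]
      have h6 : R ^ (i - 3 + 1) ≤ R ^ (q - 3) := pow_le_pow_right₀ hR (by omega)
      exact (mul_le_mul_of_nonneg_left h6 hl3.le).trans h3)
  have hG := (G_pre D B).trans (G_start D l3 R hl hl3 hR)
  have hTs := T_pre D (by omega) B hB
  set k := (Bd \ (∅ ∪ B)).card with hk
  refine forces_of_pot D.sys Bd goal hA hgoal hchain (by positivity) hR1 hR2
    (fun X Y F hcl z z' hne => D.cap hl3 (by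
      intro i hi _
      rw [hl]
      show l3 ≤ l3 * R ^ (i - 3)
      have h6 : 1 ≤ R ^ (i - 3) := one_le_pow₀ hR
      nlinarith) hq hcl z z' hne) hCap0 (le_of_eq rfl) hloss0 k ∅ B univ hk.symm
    (disjoint_empty_left _) ?_
  have hkB : (k : ℝ) ≤ Bd.card := by
    exact_mod_cast card_le_card (sdiff_subset (s := Bd))
  have h6 : (Bd.card : ℝ) * loss ≤ Tr q n D.sys.c / 4 := by
    have h7 : (Bd.card : ℝ) * loss = (Bd.card : ℝ) * ((D.sys.C1 + D.sys.C2) * (D.sys.NN ^ 2
      * Real.exp (3 * (D.η * q)))) / l3 := by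
      rw [hloss, hCap]; ring
    rw [h7, div_le_iff₀ hl3]
    linarith
  have h6' : (k : ℝ) * loss ≤ Tr q n D.sys.c / 4 :=
    (mul_le_mul_of_nonneg_right hkB hloss0).trans h6
  have h7 : D.sys.G ∅ B univ ≤ Tr q n D.sys.c / 2 := by
    refine hG.trans ?_
    rw [sq, mul_assoc]
    have := mul_le_mul_of_nonneg_left h5 hT.le
    linarith
  unfold Sys.L
  linarith

end start

end Pool.Agent.N451.Move
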