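import Mathlib
import Pool.Agent.N451.Move.Pre

set_option autoImplicit false
set_option linter.unusedVariables false
set_option linter.unusedSectionVars false
set_option linter.unusedSimpArgs false

namespace Pool.Agent.N451.Move

open Finset Filter Pool.Agent.Helper340.MB Pool.Agent.Helper340.TwoEdges

/-- the edges of the complete graph on the finite set `P` -/
def pe (P : Finset ℕ) : Finset (Sym2 ℕ) := P.sym2.filter (fun z => ¬ z.IsDiag)

/-- `M` contains all edges of a clique on `q` vertices of `P` -/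
def HasC (P : Finset ℕ) (q : ℕ) (M : Finset (Sym2 ℕ)) : Prop :=
  ∃ S ⊆ P, S.card = q ∧ ∀ u ∈ S, ∀ v ∈ S, u ≠ v → s(u, v) ∈ M

lemma card_pe_le (P : Finset ℕ) : (pe P).card ≤ P.card ^ 2 := by
  have h2 : pe P ⊆ (P ×ˢ P).image (fun p => s(p.1, p.2)) := by
    intro z hz
    induction z using Sym2.ind with
    | _ x y =>
      unfold pe at hz
      rw [mem_filter, mk_mem_sym2_iff] at hz
      exact mem_image.mpr ⟨(x, y), mem_product.mpr hz.1, rfl⟩
  refine (card_le_card h2).trans (card_image_le.trans ?_)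
  rw [card_product, sq]

lemma es_sub_pe {P : Finset ℕ} {q n : ℕ} [NeZero n] {e : Fin q × Fin n → ℕ}
    (he : Function.Injective e) (heP : ∀ x, e x ∈ P) (φ : Fin q → Fin n) :
    es e univ φ ⊆ pe P := by
  intro z hz
  obtain ⟨p, hp, rfl⟩ := mem_es.mp hz
  unfold pe
  rw [mem_filter]
  unfold ed
  refine ⟨mk_mem_sym2_iff.mpr ⟨heP _, heP _⟩, ?_⟩
  rw [Sym2.mk_isDiag_iff]
  intro h
  have h1 := he h
  rw [Prod.mk.injEq] at h1
  have := (mem_prs.mp hp).2.2
  rw [h1.1] at this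
  exact lt_irrefl _ this

lemma hasC_of_es {P : Finset ℕ} {q n : ℕ} [NeZero n] {e : Fin q × Fin n → ℕ}
    (he : Function.Injective e) (heP : ∀ x, e x ∈ P) (φ : Fin q → Fin n) (M : Finset (Sym2 ℕ))
    (h : es e univ φ ⊆ M) : HasC P q M := by
  refine ⟨univ.image (fun i => e (i, φ i)), ?_, ?_, ?_⟩
  · intro x hx
    rw [mem_image] at hx
    obtain ⟨i, -, rfl⟩ := hx
    exact heP _
  · rw [card_image_of_injective, card_univ, Fintype.card_fin]
    intro i j hij
    have := he hij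
    rw [Prod.mk.injEq] at this
    exact this.1
  · intro u hu v hv huv
    simp only [mem_image, mem_univ, true_and] at hu hv
    obtain ⟨i, rfl⟩ := hu
    obtain ⟨j, rfl⟩ := hv
    have hij : i ≠ j := by
      rintro rfl
      exact huv rfl
    rcases lt_or_gt_of_ne hij with h1 | h1
    · exact h (mem_es.mpr ⟨(i, j), mem_prs.mpr ⟨mem_univ _, mem_univ _, h1⟩, rfl⟩)
    · rw [Sym2.eq_swap]
      exact h (mem_es.mpr ⟨(j, i), mem_prs.mpr ⟨mem_univ _, mem_univ _, h1⟩, rfl⟩)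

/-- Maker wins on the complete graph on `P` as soon as the numerical hypotheses hold, even if
Breaker already owns at most `n ^ 2 / 8` edges. -/
lemma pool_of_numer {m b : ℕ} (hm : 1 ≤ m) (hb : 1 ≤ b) {CA C3 η R δ M : ℝ} {q n N : ℕ}
    (hconst : ∀ (q n : ℕ) (_ : NeZero n) (V : Type) (_ : DecidableEq V)
      (D : Dat q n V), D.m = m → D.b = b →
      4 * ((D.sys.C1 + D.sys.C2) * D.sys.NN ^ 2) = CA ∧ D.sys.C3 = C3)
    (hCA : 1 ≤ CA) (hη0 : 0 < η) (hη1 : η * (8 * b) ≤ 1) (hR : 1 ≤ R)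
    (hR1 : C3 * (3 * (1 / R)) ≤ η / 4) (hR2 : C3 * (3 * (1 / R)) ≤ (cc m b - 1) * (η / 4))
    (hδ0 : 0 < δ) (hδ : 4 * R * δ * cc m b ^ 4 ≤ 1) (hM : M ^ 10 = (N : ℝ)) (hM1 : 2 ≤ M)
    (hMA : CA ≤ M) (hMe : Real.exp (3 * (η * q)) ≤ M ^ 3)
    (he : (N : ℝ) ^ 3 ≤ cc m b ^ (2 * q)) (hd : (Real.sqrt (cc m b)) ^ (q - 1) ≤ δ * n)
    (hcM : 2 * R * cc m b ^ 15 * (q : ℝ) ^ 2 ≤ M)
    (hf : (N : ℝ) ≤ 2 * q * n) (hqn : q * n ≤ N) (hn : 1 ≤ n) (hq : 7 ≤ q)
    (P : Finset ℕ) (hP : P.card = N) (B : Finset (Sym2 ℕ)) (hB : 8 * B.card ≤ n ^ 2) :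
    Forces m b (pe P) (HasC P q) ∅ B := by
  have : NeZero n := ⟨by omega⟩
  have hcard : Fintype.card (Fin q × Fin n) ≤ Fintype.card P := by
    rw [Fintype.card_prod, Fintype.card_fin, Fintype.card_fin, Fintype.card_coe, hP]
    exact hqn
  obtain ⟨e'⟩ := Function.Embedding.nonempty_of_card_le hcard
  set e : Fin q × Fin n → ℕ := fun x => (e' x : ℕ) with hedef
  have heinj : Function.Injective e := by
    intro x y hxy
    exact e'.injective (Subtype.ext hxy)
  have heP : ∀ x, e x ∈ P := fun x => (e' x).2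
  have hmp : (0 : ℝ) < m := by exact_mod_cast hm
  have hbp : (0 : ℝ) < b := by exact_mod_cast hb
  have hc : 1 < cc m b := by
    unfold cc
    have := div_pos hbp hmp
    linarith
  have hT := Tr_pos (q := q) (n := n) hc
  set B' := CA * (N : ℝ) ^ 2 * Real.exp (3 * (η * q)) with hB'
  have hM0 : 0 < M := by linarith
  have hN0 : (0 : ℝ) < N := by rw [← hM]; positivity
  have hB0 : 0 < B' := by positivity
  have hBM : B' ≤ M ^ 24 := by
    calc B' = CA * (M ^ 10) ^ 2 * Real.exp (3 * (η * q)) := by rw [hB', hM]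
      _ ≤ M * (M ^ 10) ^ 2 * M ^ 3 := by
        apply mul_le_mul _ hMe (Real.exp_pos _).le (by positivity)
        exact mul_le_mul_of_nonneg_right hMA (by positivity)
      _ = M ^ 24 := by ring
  have hnN : n ≤ N := by nlinarith
  have hs1 : 1 < Real.sqrt (cc m b) := by
    rw [show (1 : ℝ) = Real.sqrt 1 by simp]
    exact Real.sqrt_lt_sqrt (by norm_num) hc
  have hs2 : Real.sqrt (cc m b) ^ 2 = cc m b := Real.sq_sqrt (by linarith)
  obtain ⟨h3, h5⟩ := numer_main hc hs1 hs2 hR hδ0 hδ hM hM1 he hd hB0.le hBM hcM hf hnN hn hq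
  set l3 := B' / Tr q n (cc m b) with hl3
  have hl30 : 0 < l3 := by positivity
  let D : Dat q n ℕ :=
    { e := e, he := heinj, m := m, b := b, hm := hm, hb := hb
      η := η, η_pos := hη0, η_le := hη1
      l := fun i => l3 * R ^ (i - 3), hl := fun i => by positivity }
  obtain ⟨k1, k2⟩ := hconst q n _ ℕ _ D rfl rfl
  refine start_forces_pre D (pe P) (HasC P q) (es_sub_pe heinj heP)
    (hasC_of_es heinj heP) l3 R rfl hl30 hR (by omega) ?_ ?_ ?_ ?_ ?_ B hB
  · rw [k2]; exact hR1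
  · rw [k2]; exact hR2
  · rw [hl3, div_mul_eq_mul_div, div_le_one hT]
    exact h3
  · have h6 : l3 * Tr q n D.sys.c = B' := by
      show B' / Tr q n (cc m b) * Tr q n (cc m b) = B'
      rw [div_mul_cancel₀ _ hT.ne']
    rw [h6]
    have h7 : 4 * (((pe P).card : ℝ) * ((D.sys.C1 + D.sys.C2) * (D.sys.NN ^ 2
      * Real.exp (3 * (D.η * q))))) = CA * ((pe P).card : ℝ) * Real.exp (3 * (η * q)) := by
      rw [← k1]
      show 4 * (((pe P).card : ℝ) * ((D.sys.C1 + D.sys.C2) * (D.sys.NN ^ 2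
      * Real.exp (3 * (η * q))))) = _
      ring
    rw [h7, hB']
    apply mul_le_mul_of_nonneg_right _ (Real.exp_pos _).le
    have h8 : ((pe P).card : ℝ) ≤ (N : ℝ) ^ 2 := by
      have := card_pe_le P
      rw [hP] at this
      exact_mod_cast this
    exact mul_le_mul_of_nonneg_left h8 (by linarith)
  · show Tr q n (cc m b) * (l3 * ∑ i ∈ Ico 3 q, (q.choose i : ℝ)
      * R ^ (i - 3) * (cc m b ^ (i.choose 2) / (n : ℝ) ^ i)) ≤ 1 / 2
    rw [← mul_assoc, hl3, mul_div_cancel₀ _ hT.ne']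
    exact h5

lemma ev_facts (CA K δ : ℝ) (hδ : 0 < δ) :
    ∀ᶠ t : ℕ in atTop, CA ≤ Real.exp (t * Real.log 2 / 10) ∧
      2 ≤ Real.exp (t * Real.log 2 / 10) ∧
      K * (2 * (t : ℝ)) ^ 2 ≤ Real.exp (t * Real.log 2 / 10) ∧
      (128 * (t : ℝ) ^ 2) ^ 3 ≤ 2 ^ t ∧ 1 ≤ 64 * δ * t := by
  have hl2 : 0 < Real.log 2 := Real.log_pos (by norm_num)
  have ht : Tendsto (fun t : ℕ => (t : ℝ)) atTop atTop := tendsto_natCast_atTop_atTop
  have h1 : Tendsto (fun t : ℕ => Real.exp (t * Real.log 2 / 10)) atTop atTop := by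
    refine Real.tendsto_exp_atTop.comp ?_
    exact (ht.atTop_mul_const hl2).atTop_div_const (by norm_num)
  have e1 := h1.eventually_ge_atTop CA
  have e2 := h1.eventually_ge_atTop 2
  have e5 : ∀ᶠ t : ℕ in atTop, 1 ≤ 64 * δ * (t : ℝ) :=
    (ht.const_mul_atTop (by positivity : (0 : ℝ) < 64 * δ)).eventually_ge_atTop 1
  have e3 : ∀ᶠ t : ℕ in atTop, K * (2 * (t : ℝ)) ^ 2 ≤ Real.exp (t * Real.log 2 / 10) := by
    have h3 := (isLittleO_pow_exp_pos_mul_atTop (k := 2)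
      (show (0 : ℝ) < Real.log 2 / 10 by positivity)).comp_tendsto ht
    have h4 := h3.def (show (0 : ℝ) < 1 / (4 * |K| + 1) by positivity)
    filter_upwards [h4] with t h4
    simp only [Function.comp_apply, Real.norm_eq_abs] at h4
    rw [abs_of_nonneg (by positivity), abs_of_pos (Real.exp_pos _)] at h4
    have h5 : Real.log 2 / 10 * (t : ℝ) = t * Real.log 2 / 10 := by ring
    rw [h5, one_div, inv_mul_eq_div, le_div_iff₀ (by positivity)] at h4
    have h6 := le_abs_self K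
    have h7 : (0 : ℝ) ≤ (t : ℝ) ^ 2 := by positivity
    nlinarith
  have e4 : ∀ᶠ t : ℕ in atTop, (128 * (t : ℝ) ^ 2) ^ 3 ≤ 2 ^ t := by
    have h3 := (isLittleO_pow_exp_pos_mul_atTop (k := 6) hl2).comp_tendsto ht
    have h4 := h3.def (show (0 : ℝ) < 1 / 128 ^ 3 by positivity)
    filter_upwards [h4] with t h4
    simp only [Function.comp_apply, Real.norm_eq_abs] at h4
    rw [abs_of_nonneg (by positivity), abs_of_pos (Real.exp_pos _)] at h4
    have h5 : Real.exp (Real.log 2 * (t : ℝ)) = 2 ^ t := by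
      rw [mul_comm, Real.exp_nat_mul, Real.exp_log (by norm_num)]
    rw [h5, one_div, inv_mul_eq_div, le_div_iff₀ (by positivity)] at h4
    calc (128 * (t : ℝ) ^ 2) ^ 3 = (t : ℝ) ^ 6 * 128 ^ 3 := by ring
      _ ≤ _ := h4
  filter_upwards [e1, e2, e3, e4, e5] with t h1 h2 h3 h4 h5
  exact ⟨h1, h2, h3, h4, h5⟩

/-- **The pool game.** On a pool of `128 t² 2^t` vertices Maker builds a clique on `2 t` vertices,
even if Breaker owns already up to `512 t² 4^t` edges. -/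
theorem pool_wins : ∃ t₀ : ℕ, ∀ t ≥ t₀, ∀ P : Finset ℕ, P.card = (2 * t) * (64 * t * 2 ^ t) →
    ∀ B : Finset (Sym2 ℕ), 8 * B.card ≤ (64 * t * 2 ^ t) ^ 2 →
      Forces 1 1 (pe P) (HasC P (2 * t)) ∅ B := by
  obtain ⟨CA, C3, hCA, hC3, hconst⟩ := param_const 1 1 le_rfl le_rfl
  have hcc : cc 1 1 = 2 := by unfold cc; norm_num
  set lc := Real.log 2 with hlcdef
  have hlc : 0 < lc := Real.log_pos (by norm_num)
  have hlc1 : lc < 1 := by
    have := Real.log_two_lt_d9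
    linarith
  set η := lc / 20 with hη
  have hη0 : 0 < η := by positivity
  have hη1 : η * (8 * (1 : ℕ)) ≤ 1 := by
    rw [hη]; push_cast; linarith
  set R := 12 * C3 / η with hR
  have hR1 : 1 ≤ R := by
    rw [hR, le_div_iff₀ (by positivity), one_mul]
    linarith
  have hR0 : 0 < R := by linarith
  have hRe : C3 * (3 * (1 / R)) = η / 4 := by
    rw [hR]
    have : C3 ≠ 0 := by linarith
    field_simp
    norm_num
  have hRa : C3 * (3 * (1 / R)) ≤ η / 4 := hRe.le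
  have hRb : C3 * (3 * (1 / R)) ≤ (cc 1 1 - 1) * (η / 4) := by
    rw [hRe, hcc]; linarith
  set δ := 1 / (4 * R * cc 1 1 ^ 4) with hδ
  have hδ0 : 0 < δ := by rw [hδ, hcc]; positivity
  have hδe : 4 * R * δ * cc 1 1 ^ 4 ≤ 1 := by
    rw [hδ, hcc]
    apply le_of_eq
    field_simp
  obtain ⟨t₁, ht₁⟩ := eventually_atTop.mp (ev_facts CA (2 * R * cc 1 1 ^ 15) δ hδ0)
  refine ⟨max t₁ 4, ?_⟩
  intro t ht P hP B hB
  obtain ⟨f1, f2, f3, f4, f5⟩ := ht₁ t ((le_max_left _ _).trans ht)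
  have ht4 : 4 ≤ t := (le_max_right _ _).trans ht
  have htR : (4 : ℝ) ≤ t := by exact_mod_cast ht4
  set n := 64 * t * 2 ^ t with hn
  set N := (2 * t) * n with hN
  have hnR : (n : ℝ) = 64 * t * 2 ^ t := by rw [hn]; push_cast; ring
  have hNR : (N : ℝ) = 128 * (t : ℝ) ^ 2 * 2 ^ t := by rw [hN, hn]; push_cast; ring
  have hN0 : (0 : ℝ) < N := by rw [hNR]; positivity
  set y := Real.log (N : ℝ) with hy
  have h2t : (2 : ℝ) ^ t = Real.exp (t * lc) := by
    rw [Real.exp_nat_mul, hlcdef, Real.exp_log (by norm_num)]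
  have hNge : (2 : ℝ) ^ t ≤ N := by
    rw [hNR]
    have h1 : (1 : ℝ) ≤ 128 * (t : ℝ) ^ 2 := by nlinarith
    have h2 : (0 : ℝ) ≤ 2 ^ t := by positivity
    nlinarith
  have hyt : t * lc ≤ y := by
    rw [hy, Real.le_log_iff_exp_le hN0, ← h2t]
    exact hNge
  set M := Real.exp (y / 10) with hM
  have hMge : Real.exp (t * lc / 10) ≤ M := by
    rw [hM]
    apply Real.exp_le_exp.mpr
    linarith
  have hM10 : M ^ 10 = (N : ℝ) := by
    rw [hM, ← Real.exp_nat_mul]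
    have : ((10 : ℕ) : ℝ) * (y / 10) = y := by push_cast; ring
    rw [this, hy, Real.exp_log hN0]
  refine pool_of_numer le_rfl le_rfl hconst hCA hη0 hη1 hR1 hRa hRb hδ0 hδe hM10
    (f2.trans hMge) (f1.trans hMge) ?_ ?_ ?_ ?_ ?_ le_rfl ?_ ?_ P hP B hB
  · rw [hM, ← Real.exp_nat_mul]
    apply Real.exp_le_exp.mpr
    push_cast
    rw [hη]
    linarith
  · rw [hcc, hNR]
    have h1 : (2 : ℝ) ^ (2 * (2 * t)) = 2 ^ t * (2 ^ t) ^ 3 := by
      rw [← pow_mul, ← pow_add]; congr 1; ring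
    rw [h1, mul_pow]
    exact mul_le_mul_of_nonneg_right f4 (by positivity)
  · rw [hcc]
    have hs : Real.sqrt 2 ^ 2 = 2 := Real.sq_sqrt (by norm_num)
    have hs1 : 1 ≤ Real.sqrt 2 := by
      rw [show (1 : ℝ) = Real.sqrt 1 by simp]
      exact Real.sqrt_le_sqrt (by norm_num)
    calc Real.sqrt 2 ^ (2 * t - 1) ≤ Real.sqrt 2 ^ (2 * t) := pow_le_pow_right₀ hs1 (by omega)
      _ = 2 ^ t := by rw [pow_mul, hs]
      _ ≤ (64 * δ * t) * 2 ^ t := by
        have : (0 : ℝ) ≤ 2 ^ t := by positivity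
        nlinarith
      _ = δ * n := by rw [hnR]; ring
  · push_cast
    exact f3.trans hMge
  · rw [hN]; push_cast
    have h1 : (0 : ℝ) ≤ 2 * (t : ℝ) * (n : ℝ) := by positivity
    linarith
  · rw [hn]
    have h0 : 0 < t := by omega
    have h1 : 0 < 64 * t * 2 ^ t := by positivity
    exact h1
  · omega

end Pool.Agent.N451.Move
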