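import Mathlib
import Pool.Agent.Helper679.CGDefs
import Pool.Agent.N451.Move.Pool

set_option autoImplicit false
set_option linter.unusedVariables false
set_option linter.unusedSectionVars false
set_option linter.unusedSimpArgs false

namespace Pool.Agent.N451.Move

open Finset Pool.Agent.Helper679.CliqueGame Pool.Agent.Helper340.MB

/-- `M` contains all edges of a clique on `q` vertices. -/
def Cl (q : ℕ) (M : Finset (Sym2 ℕ)) : Prop :=
  ∃ S : Finset ℕ, S.card = q ∧ ∀ u ∈ S, ∀ v ∈ S, u ≠ v → s(u, v) ∈ M

/-- Maker, to move in the position `(M, B)`, can own a `K_q` after at most `k` more moves. -/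
inductive Win (q : ℕ) : ℕ → Finset (Sym2 ℕ) → Finset (Sym2 ℕ) → Prop
  | done {k : ℕ} {M B : Finset (Sym2 ℕ)} (h : Cl q M) : Win q k M B
  | move {k : ℕ} {M B : Finset (Sym2 ℕ)} (e : Sym2 ℕ) (he : ¬ e.IsDiag) (he' : e ∉ M ∪ B)
      (h : ∀ f : Sym2 ℕ, ¬ f.IsDiag → f ∉ insert e (M ∪ B) →
        Win q k (insert e M) (insert f B)) : Win q (k + 1) M B

lemma Win.mono {q k : ℕ} {M B : Finset (Sym2 ℕ)} (h : Win q k M B) :
    ∀ k', k ≤ k' → Win q k' M B := by
  induction h with
  | done h => exact fun k' _ => Win.done h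
  | move e he he' _ ih =>
    intro k' hk'
    obtain ⟨l, rfl⟩ : ∃ l, k' = l + 1 := ⟨k' - 1, by omega⟩
    exact Win.move e he he' fun f hf hf' => ih f hf hf' l (by omega)

/-! ### From `Win` to strategies -/

/-- Maker's edges in a history that ends with a move of Breaker. -/
def stM : List (Sym2 ℕ) → Finset (Sym2 ℕ)
  | [] => ∅
  | [_] => ∅
  | _ :: e :: h => insert e (stM h)

/-- Breaker's edges in a history that ends with a move of Breaker. -/
def stB : List (Sym2 ℕ) → Finset (Sym2 ℕ)
  | [] => ∅
  | [_] => ∅
  | f :: _ :: h => insert f (stB h)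

/-- `e` is a good move. -/
def Good (q k : ℕ) (M B : Finset (Sym2 ℕ)) (e : Sym2 ℕ) : Prop :=
  ∀ f : Sym2 ℕ, ¬ f.IsDiag → f ∉ insert e (M ∪ B) → Win q k (insert e M) (insert f B)

lemma mem_board_iff' (e : Sym2 ℕ) : e ∈ board ↔ ¬ e.IsDiag := by
  unfold board
  rw [SimpleGraph.edgeSet_top]
  simp

lemma exists_free' (h : List (Sym2 ℕ)) : ∃ f, f ∈ board ∧ f ∉ h := by
  have hinj : Function.Injective fun n : ℕ => (s(n, n + 1) : Sym2 ℕ) := by
    intro a b hab
    have hab' : s(a, a + 1) = s(b, b + 1) := hab
    rw [Sym2.eq_iff] at hab'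
    omega
  obtain ⟨g, ⟨n, rfl⟩, hn⟩ := (Set.infinite_range_of_injective hinj).exists_notMem_finset h.toFinset
  refine ⟨s(n, n + 1), ?_, by simpa using hn⟩
  rw [mem_board_iff']
  simp

lemma exists_move (q m : ℕ) (h : List (Sym2 ℕ)) :
    ∃ e, e ∈ board ∧ e ∉ h ∧
      ((∃ e', e' ∈ board ∧ e' ∉ h ∧ Good q (m - (h.length / 2 + 1)) (stM h) (stB h) e') →
        Good q (m - (h.length / 2 + 1)) (stM h) (stB h) e) := by
  by_cases hc : ∃ e', e' ∈ board ∧ e' ∉ h ∧ Good q (m - (h.length / 2 + 1)) (stM h) (stB h) e'
  · obtain ⟨e, h1, h2, h3⟩ := hc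
    exact ⟨e, h1, h2, fun _ => h3⟩
  · obtain ⟨f, h1, h2⟩ := exists_free' h
    exact ⟨f, h1, h2, fun h => absurd h hc⟩

/-- Maker's strategy. -/
noncomputable def mkr (q m : ℕ) : Strategy where
  move h := (exists_move q m h).choose
  mem_board h := (exists_move q m h).choose_spec.1
  not_mem h := (exists_move q m h).choose_spec.2.1

theorem makerWins_of_win {q m : ℕ} (hw : Win q m ∅ ∅) : MakerWinsWithin q m := by
  refine ⟨mkr q m, fun β => ?_⟩
  set μ := mkr q m with hμ
  have key : ∀ i, i ≤ m → (hist μ β i).length = 2 * i ∧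
      (∀ g, g ∈ hist μ β i ↔ g ∈ stM (hist μ β i) ∪ stB (hist μ β i)) ∧
      (∀ g ∈ stM (hist μ β i), g ∈ makerEdges μ β i) ∧
      ((∃ S : Finset ℕ, S.card = q ∧ ∀ u ∈ S, ∀ v ∈ S, u ≠ v → s(u, v) ∈ makerEdges μ β i) ∨
        Win q (m - i) (stM (hist μ β i)) (stB (hist μ β i))) := by
    intro i
    induction i with
    | zero =>
      intro _
      refine ⟨rfl, by simp [hist, stM, stB], by simp [hist, stM], Or.inr ?_⟩
      exact hw
    | succ i ih =>
      intro hi
      obtain ⟨h1, h2, h3, h4⟩ := ih (by omega)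
      set h := hist μ β i with hh
      set e := μ.move h with he
      set f := β.move (e :: h) with hf
      have hhist : hist μ β (i + 1) = f :: e :: h := rfl
      have hmono : ∀ g ∈ makerEdges μ β i, g ∈ makerEdges μ β (i + 1) := by
        rintro g ⟨j, hj, rfl⟩
        exact ⟨j, by omega, rfl⟩
      have hfb : ¬ f.IsDiag := (mem_board_iff' f).1 (β.mem_board _)
      have hfh : f ∉ e :: h := β.not_mem _
      rw [hhist]
      refine ⟨by simp [h1]; ring, ?_, ?_, ?_⟩
      · intro g
        have := h2 g
        simp only [stM, stB, List.mem_cons, mem_union, mem_insert] at this ⊢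
        tauto
      · intro g hg
        simp only [stM, mem_insert] at hg
        rcases hg with rfl | hg
        · exact ⟨i, by omega, rfl⟩
        · exact hmono g (h3 g hg)
      · rcases h4 with ⟨S, hS, hS'⟩ | h4
        · exact Or.inl ⟨S, hS, fun u hu v hv huv => hmono _ (hS' u hu v hv huv)⟩
        · obtain ⟨k, hk⟩ : ∃ k, m - i = k + 1 := ⟨m - i - 1, by omega⟩
          rw [hk] at h4
          have hk' : m - (i + 1) = k := by omega
          have hk'' : m - (h.length / 2 + 1) = k := by rw [h1]; omega
          cases h4 with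
          | done hc =>
            obtain ⟨S, hS, hS'⟩ := hc
            exact Or.inl ⟨S, hS, fun u hu v hv huv => hmono _ (h3 _ (hS' u hu v hv huv))⟩
          | move e' he1 he2 he3 =>
            right
            have hgood : Good q (m - (h.length / 2 + 1)) (stM h) (stB h) e := by
              refine (exists_move q m h).choose_spec.2.2 ⟨e', (mem_board_iff' e').2 he1, ?_, ?_⟩
              · rw [h2]; exact he2
              · rw [hk'']; exact he3
            rw [hk''] at hgood
            rw [hk']
            simp only [stM, stB]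
            refine hgood f hfb ?_
            rw [mem_insert, ← h2]
            simpa [List.mem_cons] using hfh
  obtain ⟨-, -, h3, h4⟩ := key m le_rfl
  rw [Nat.sub_self] at h4
  have hcl : ∃ S : Finset ℕ, S.card = q ∧ ∀ u ∈ S, ∀ v ∈ S, u ≠ v →
      s(u, v) ∈ makerEdges μ β m := by
    rcases h4 with h4 | h4
    · exact h4
    · generalize hz : (0 : ℕ) = z at h4
      cases h4 with
      | done hc =>
        obtain ⟨S, hS, hS'⟩ := hc
        exact ⟨S, hS, fun u hu v hv huv => h3 _ (hS' u hu v hv huv)⟩
      | move e' _ _ _ => omega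
  obtain ⟨S, hS, hS'⟩ := hcl
  intro hfree
  refine hfree S ?_
  rw [SimpleGraph.isNClique_iff, SimpleGraph.isClique_iff]
  refine ⟨?_, hS⟩
  intro u hu v hv huv
  rw [makerGraph, SimpleGraph.fromEdgeSet_adj]
  exact ⟨hS' u hu v hv huv, huv⟩

/-! ### The pool phase -/

lemma pool_phase {P C : Finset ℕ} {q r : ℕ} (hCP : Disjoint C P) (hq : C.card + r = q)
    {M' B' : Finset (Sym2 ℕ)} (hF : Forces 1 1 (pe P) (HasC P r) M' B') :
    ∀ M B : Finset (Sym2 ℕ), M ∩ pe P = M' → B ∩ pe P ⊆ B' →
      (∀ u ∈ C, ∀ v ∈ C ∪ P, u ≠ v → s(u, v) ∈ M) →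
      Win q ((pe P \ (M' ∪ B')).card) M B := by
  induction hF with
  | @done M' B' h0 hg =>
    intro M B hM hB hC
    apply Win.done
    obtain ⟨S, hSP, hS, hS'⟩ := hg
    have hMM : M' ⊆ M := by rw [← hM]; exact inter_subset_left
    refine ⟨C ∪ S, ?_, ?_⟩
    · rw [card_union_of_disjoint (disjoint_of_subset_right hSP hCP), hS, hq]
    · intro u hu v hv huv
      rw [mem_union] at hu hv
      rcases hu with hu | hu
      · refine hC u hu v ?_ huv
        rw [mem_union]
        rcases hv with hv | hv
        · exact Or.inl hv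
        · exact Or.inr (hSP hv)
      · rcases hv with hv | hv
        · rw [Sym2.eq_swap]
          exact hC v hv u (mem_union_right _ (hSP hu)) huv.symm
        · exact hMM (hS' u hu v hv huv)
  | @move M' B' hne Q hQ hc _ ih =>
    intro M B hM hB hC
    have hpos : 0 < (pe P \ (M' ∪ B')).card := card_pos.mpr hne
    have hc1 : Q.card = 1 := by rw [hc]; omega
    obtain ⟨e, rfl⟩ := card_eq_one.mp hc1
    have heP : e ∈ pe P \ (M' ∪ B') := hQ (mem_singleton_self e)
    rw [mem_sdiff, mem_union, not_or] at heP
    obtain ⟨hePe, heM', heB'⟩ := heP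
    have hed : ¬ e.IsDiag := by
      unfold pe at hePe
      exact (mem_filter.mp hePe).2
    have heM : e ∉ M := fun h => heM' (by rw [← hM]; exact mem_inter.mpr ⟨h, hePe⟩)
    have heB : e ∉ B := fun h => heB' (hB (mem_inter.mpr ⟨h, hePe⟩))
    have hstep : Win q (((pe P \ (M' ∪ B')).card - 1) + 1) M B := by
      refine Win.move e hed (by rw [mem_union, not_or]; exact ⟨heM, heB⟩) ?_
      intro f hfd hf
      rw [mem_insert, mem_union, not_or, not_or] at hf
      obtain ⟨hfe, hfM, hfB⟩ := hf
      -- the (fictitious) reply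
      obtain ⟨R, hR, hRc, hfR⟩ : ∃ R ⊆ (pe P \ (M' ∪ B')) \ {e},
          R.card = min 1 ((pe P \ (M' ∪ B')) \ {e}).card ∧ (f ∈ pe P → f ∈ B' ∪ R) := by
        by_cases hfin : f ∈ (pe P \ (M' ∪ B')) \ {e}
        · refine ⟨{f}, singleton_subset_iff.mpr hfin, ?_, fun _ => by simp⟩
          have : 0 < ((pe P \ (M' ∪ B')) \ {e}).card := card_pos.mpr ⟨f, hfin⟩
          rw [card_singleton]; omega
        · obtain ⟨R, hR, hRc⟩ := exists_subset_card_eq (s := (pe P \ (M' ∪ B')) \ {e})
            (n := min 1 ((pe P \ (M' ∪ B')) \ {e}).card) (min_le_right _ _)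
          refine ⟨R, hR, hRc, fun hfP => ?_⟩
          rw [mem_union]
          left
          by_contra hfB'
          apply hfin
          rw [mem_sdiff, mem_sdiff, mem_union, not_or, mem_singleton]
          refine ⟨⟨hfP, ?_, hfB'⟩, hfe⟩
          intro hfM'
          rw [← hM] at hfM'
          exact hfM (mem_inter.mp hfM').1
      have h1 := ih R hR hRc (insert e M) (insert f B) ?_ ?_ ?_
      · refine h1.mono _ ?_
        have hlt : (pe P \ (M' ∪ {e} ∪ (B' ∪ R))).card < (pe P \ (M' ∪ B')).card := by
          apply card_lt_card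
          refine ⟨?_, ?_⟩
          · intro z hz
            simp only [mem_sdiff, mem_union, not_or] at hz ⊢
            exact ⟨hz.1, hz.2.1.1, hz.2.2.1⟩
          · intro hcon
            have := hcon (hQ (mem_singleton_self e))
            simp only [mem_sdiff, mem_union, not_or, mem_singleton] at this
            exact this.2.1.2 trivial
        omega
      · rw [insert_inter_of_mem hePe, hM]
        ext z; simp [or_comm]
      · intro z hz
        rw [mem_inter, mem_insert] at hz
        rcases hz with ⟨rfl | hz, hzP⟩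
        · exact hfR hzP
        · exact mem_union_left _ (hB (mem_inter.mpr ⟨hz, hzP⟩))
      · intro u hu v hv huv
        exact mem_insert_of_mem (hC u hu v hv huv)
    have : (pe P \ (M' ∪ B')).card - 1 + 1 = (pe P \ (M' ∪ B')).card := by omega
    rwa [this] at hstep

/-! ### The star phase -/

lemma star_phase {q k g v : ℕ} : ∀ (n : ℕ) (U G : Finset ℕ) (M B : Finset (Sym2 ℕ)),
    U.card = n → v ∉ U → (∀ w ∈ U, s(v, w) ∉ M ∪ B) → (∀ w ∈ G, s(v, w) ∈ M) → Disjoint U G →
    g ≤ G.card + U.card / 2 →
    (∀ (M' B' : Finset (Sym2 ℕ)) (G' : Finset ℕ), M ⊆ M' → (∀ z ∈ M', z ∈ M ∨ v ∈ z) →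
      B'.card ≤ B.card + U.card → G' ⊆ G ∪ U → g ≤ G'.card → (∀ w ∈ G', s(v, w) ∈ M') →
      Win q k M' B') →
    Win q (k + U.card) M B := by
  intro n
  induction n using Nat.strong_induction_on with
  | _ n ih =>
    intro U G M B hn hvU hfree hG hd hg hcont
    rcases U.eq_empty_or_nonempty with rfl | ⟨w, hw⟩
    · rw [card_empty, add_zero]
      refine hcont M B G (Subset.refl _) (fun z hz => Or.inl hz) (by simp) (by simp) ?_ hG
      simpa using hg
    · have hvw : v ≠ w := fun h => hvU (h ▸ hw)
      have hpos : 0 < U.card := card_pos.mpr ⟨w, hw⟩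
      have hstep : Win q ((k + U.card - 1) + 1) M B := by
        refine Win.move s(v, w) (by simpa using hvw) (hfree w hw) ?_
        intro f hfd hf
        set U' := (U.erase w).filter (fun w' => s(v, w') ≠ f) with hU'
        have hU'U : U' ⊆ U := (filter_subset _ _).trans (erase_subset _ _)
        have hU'w : w ∉ U' := by
          rw [hU', mem_filter, mem_erase]; tauto
        have hU'lt : U'.card < U.card := card_lt_card ⟨hU'U, fun h => hU'w (h hw)⟩
        have hU'ge : U.card ≤ U'.card + 2 := by
          have h1 : U'.card + ((U.erase w).filter (fun w' => ¬ s(v, w') ≠ f)).card =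
              (U.erase w).card := by
            rw [hU']
            convert card_filter_add_card_filter_not (s := U.erase w) (fun w' => s(v, w') ≠ f)
          have h2 : ((U.erase w).filter (fun w' => ¬ s(v, w') ≠ f)).card ≤ 1 := by
            rw [card_le_one]
            intro a ha b hb
            rw [mem_filter, not_not] at ha hb
            have h3 : s(v, a) = s(v, b) := ha.2.trans hb.2.symm
            rw [Sym2.eq_iff] at h3
            rcases h3 with ⟨-, h⟩ | ⟨h, h'⟩
            · exact h
            · rw [h', h]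
          rw [card_erase_of_mem hw] at h1
          omega
        have h1 := ih U'.card (by omega) U' (insert w G) (insert s(v, w) M) (insert f B) rfl
          (fun h => hvU (hU'U h)) ?_ ?_ ?_ ?_ ?_
        · exact h1.mono _ (by omega)
        · intro w' hw'
          have hw'U := hU'U hw'
          have hw'f : s(v, w') ≠ f := by
            rw [hU', mem_filter] at hw'
            exact hw'.2
          have hw'w : w' ≠ w := fun h => hU'w (h ▸ hw')
          have := hfree w' hw'U
          rw [mem_union, not_or] at this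
          rw [mem_union, mem_insert, mem_insert, not_or, not_or, not_or]
          refine ⟨⟨?_, this.1⟩, hw'f, this.2⟩
          intro h
          rw [Sym2.eq_iff] at h
          rcases h with ⟨-, h⟩ | ⟨h, h'⟩
          · exact hw'w h
          · exact hvw h
        · intro w' hw'
          rw [mem_insert] at hw'
          rcases hw' with rfl | hw'
          · exact mem_insert_self _ _
          · exact mem_insert_of_mem (hG w' hw')
        · rw [disjoint_insert_right]
          exact ⟨hU'w, disjoint_of_subset_left hU'U hd⟩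
        · rw [card_insert_of_notMem (fun h => disjoint_left.mp hd hw h)]
          omega
        · intro M' B' G' hM' hz hB' hG' hg' hGM
          refine hcont M' B' G' ((subset_insert _ _).trans hM') ?_ ?_ ?_ hg' hGM
          · intro z hzM
            rcases hz z hzM with h | h
            · rw [mem_insert] at h
              rcases h with rfl | h
              · right; simp
              · exact Or.inl h
            · exact Or.inr h
          · have := card_insert_le f B
            omega
          · intro x hx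
            have := hG' hx
            rw [mem_union, mem_insert] at this
            rw [mem_union]
            rcases this with (rfl | h) | h
            · exact Or.inr hw
            · exact Or.inl h
            · exact Or.inr (hU'U h)
      have : k + U.card - 1 + 1 = k + U.card := by omega
      rwa [this] at hstep

/-! ### Choosing the next centre -/

lemma exists_low (P : Finset ℕ) (hP : P.Nonempty) (B : Finset (Sym2 ℕ)) :
    ∃ v ∈ P, P.card * (P.filter (fun w => s(v, w) ∈ B)).card ≤ 2 * B.card := by
  by_contra hcon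
  push Not at hcon
  have h1 : ∑ v ∈ P, (P.filter (fun w => s(v, w) ∈ B)).card ≤ 2 * B.card := by
    have h2 : ∑ v ∈ P, (P.filter (fun w => s(v, w) ∈ B)).card =
        ((P ×ˢ P).filter (fun p => s(p.1, p.2) ∈ B)).card := by
      rw [card_filter, sum_product]
      refine sum_congr rfl fun v _ => ?_
      rw [card_filter]
    rw [h2]
    refine card_le_mul_card_image_of_maps_to (f := fun p : ℕ × ℕ => (s(p.1, p.2) : Sym2 ℕ))
      (t := B) ?_ 2 ?_ 
    · intro p hp
      exact (mem_filter.mp hp).2
    · intro z _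
      induction z using Sym2.ind with
      | _ a b =>
        refine (card_le_card (t := {(a, b), (b, a)}) ?_).trans card_le_two
        intro p hp
        rw [mem_filter] at hp
        have := hp.2
        rw [Sym2.eq_iff] at this
        rw [mem_insert, mem_singleton, Prod.ext_iff, Prod.ext_iff]
        exact this
  have h3 : P.card * (2 * B.card) < P.card * (2 * B.card) := by
    calc P.card * (2 * B.card) = ∑ v ∈ P, 2 * B.card := by rw [sum_const, smul_eq_mul]
      _ < ∑ v ∈ P, P.card * (P.filter (fun w => s(v, w) ∈ B)).card :=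
        sum_lt_sum_of_nonempty hP hcon
      _ = P.card * ∑ v ∈ P, (P.filter (fun w => s(v, w) ∈ B)).card := by rw [mul_sum]
      _ ≤ P.card * (2 * B.card) := Nat.mul_le_mul_left _ h1
  exact lt_irrefl _ h3

/-! ### The chain phase -/

/-- The sizes of the pools: `pl T N i` is the size when `i` more chain vertices are needed. -/
def pl (T N : ℕ) : ℕ → ℕ
  | 0 => N
  | i + 1 => 2 * pl T N i + 9 * 2 ^ T

lemma pl_ge (T N i : ℕ) : N ≤ pl T N i := by
  induction i with
  | zero => exact le_refl _
  | succ i ih => simp only [pl]; omega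

lemma pl_eq (T N i : ℕ) : pl T N i + 9 * 2 ^ T = 2 ^ i * (N + 9 * 2 ^ T) := by
  induction i with
  | zero => simp [pl]
  | succ i ih =>
    simp only [pl]
    rw [pow_succ]
    nlinarith

lemma chain_phase {T N q r : ℕ} (hT : 9 * 2 ^ T ≤ N)
    (hpool : ∀ P : Finset ℕ, P.card = N → ∀ B : Finset (Sym2 ℕ), B.card ≤ 4 * 2 ^ T * N →
      Forces 1 1 (pe P) (HasC P r) ∅ B) :
    ∀ (i : ℕ) (P C : Finset ℕ) (M B : Finset (Sym2 ℕ)), P.card = pl T N i → Disjoint C P →
      C.card + i + r = q → M ∩ pe P = ∅ → (∀ u ∈ C, ∀ v ∈ C ∪ P, u ≠ v → s(u, v) ∈ M) →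
      B.card + 2 * pl T N i ≤ 4 * 2 ^ T * N →
      Win q (N ^ 2 + 2 * pl T N i) M B := by
  intro i
  induction i with
  | zero =>
    intro P C M B hP hCP hq hM hC hB
    simp only [pl] at hP hB ⊢
    have h1 := pool_phase (q := q) hCP (by omega) (hpool P hP B (by omega)) M B hM
      inter_subset_left hC
    refine h1.mono _ ?_
    have h2 : (pe P \ (∅ ∪ B)).card ≤ (pe P).card := card_le_card sdiff_subset
    have h3 := card_pe_le P
    rw [hP] at h3
    omega
  | succ i ih =>
    intro P C M B hP hCP hq hM hC hB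
    have hNP : 0 < N := by
      have : 0 < 2 ^ T := by positivity
      omega
    have hPge : 2 * N ≤ P.card := by
      rw [hP]
      have := pl_ge T N i
      simp only [pl]
      omega
    have hPne : P.Nonempty := card_pos.mp (by omega)
    obtain ⟨v, hv, hvdeg⟩ := exists_low P hPne B
    set d := (P.filter (fun w => s(v, w) ∈ B)).card with hd
    have hd4 : d ≤ 4 * 2 ^ T := by
      have h1 : 2 * N * d ≤ 2 * B.card := (Nat.mul_le_mul_right d hPge).trans hvdeg
      have h2 : N * d ≤ N * (4 * 2 ^ T) := by
        have h3 : B.card ≤ 4 * 2 ^ T * N := by omega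
        nlinarith
      exact Nat.le_of_mul_le_mul_left h2 hNP
    set U := (P.erase v).filter (fun w => s(v, w) ∉ B) with hU
    have hUc : 2 * pl T N i ≤ U.card := by
      have h1 : U.card + ((P.erase v).filter (fun w => ¬ s(v, w) ∉ B)).card =
          (P.erase v).card := by
        rw [hU]
        convert card_filter_add_card_filter_not (s := P.erase v) (fun w => s(v, w) ∉ B)
      rw [card_erase_of_mem hv] at h1
      have h2 : ((P.erase v).filter (fun w => ¬ s(v, w) ∉ B)).card ≤ d := by
        apply card_le_card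
        intro w hw
        rw [mem_filter, not_not] at hw
        rw [mem_filter]
        exact ⟨erase_subset _ _ hw.1, hw.2⟩
      have h3 : P.card = 2 * pl T N i + 9 * 2 ^ T := hP
      have h4 : 1 ≤ 2 ^ T := Nat.one_le_two_pow
      omega
    have hUP : U ⊆ P.erase v := filter_subset _ _
    have hUle : U.card ≤ pl T N (i + 1) := by
      rw [← hP]
      exact card_le_card (hUP.trans (erase_subset _ _))
    have hmain := star_phase (q := q) (k := N ^ 2 + 2 * pl T N i) (g := pl T N i) (v := v)
      U.card U ∅ M B rfl (fun h => by simpa using hUP h) ?_ (by simp) (by simp)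
      (by rw [card_empty]; omega) ?_
    · refine hmain.mono _ ?_
      have h3 : pl T N (i + 1) = 2 * pl T N i + 9 * 2 ^ T := rfl
      omega
    · intro w hw
      rw [hU, mem_filter, mem_erase] at hw
      obtain ⟨⟨hwv, hwP⟩, hwB⟩ := hw
      rw [mem_union, not_or]
      refine ⟨fun hwM => ?_, hwB⟩
      have : s(v, w) ∈ M ∩ pe P := by
        rw [mem_inter]
        refine ⟨hwM, ?_⟩
        unfold pe
        rw [mem_filter, mk_mem_sym2_iff]
        exact ⟨⟨hv, hwP⟩, by simpa using hwv.symm⟩
      rw [hM] at this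
      exact notMem_empty _ this
    · intro M' B' G' hM' hz hB' hG' hg' hGM
      rw [empty_union] at hG'
      obtain ⟨P', hP'G, hP'c⟩ := exists_subset_card_eq hg'
      have hP'P : P' ⊆ P.erase v := hP'G.trans (hG'.trans hUP)
      have hvP' : v ∉ P' := fun h => by simpa using hP'P h
      have hvC : v ∉ C := fun h => disjoint_left.mp hCP h hv
      refine ih P' (insert v C) M' B' hP'c ?_ ?_ ?_ ?_ ?_
      · rw [disjoint_insert_left]
        exact ⟨hvP', disjoint_of_subset_right (hP'P.trans (erase_subset _ _)) hCP⟩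
      · rw [card_insert_of_notMem hvC]; omega
      · rw [← subset_empty]
        intro z hzz
        rw [mem_inter] at hzz
        obtain ⟨hzM, hzP⟩ := hzz
        exfalso
        rcases hz z hzM with h | h
        · have : z ∈ M ∩ pe P := by
            rw [mem_inter]
            refine ⟨h, ?_⟩
            unfold pe at hzP ⊢
            rw [mem_filter] at hzP ⊢
            exact ⟨sym2_mono (hP'P.trans (erase_subset _ _)) hzP.1, hzP.2⟩
          rw [hM] at this
          exact notMem_empty _ this
        · unfold pe at hzP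
          rw [mem_filter, mem_sym2_iff] at hzP
          exact hvP' (hzP.1 v h)
      · intro a ha b hb hab
        have hCM : ∀ u ∈ C, ∀ w ∈ C ∪ P, u ≠ w → s(u, w) ∈ M' :=
          fun u hu w hw huw => hM' (hC u hu w hw huw)
        rw [mem_insert] at ha
        rw [mem_union, mem_insert] at hb
        rcases ha with rfl | ha
        · rcases hb with (rfl | hb) | hb
          · exact absurd rfl hab
          · rw [Sym2.eq_swap]
            exact hCM b hb a (mem_union_right _ hv) hab.symm
          · exact hGM b (hP'G hb)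
        · rcases hb with (rfl | hb) | hb
          · exact hCM a ha b (mem_union_right _ hv) hab
          · exact hCM a ha b (mem_union_left _ hb) hab
          · exact hCM a ha b (mem_union_right _ ((hP'P.trans (erase_subset _ _)) hb)) hab
      · have h3 : pl T N (i + 1) = 2 * pl T N i + 9 * 2 ^ T := rfl
        omega

/-- **Maker's fast strategy.** -/
theorem fast : ∃ t₀ : ℕ, ∀ t ≥ t₀, MakerWinsWithin (3 * t) (2 ^ 15 * t ^ 4 * 4 ^ t) := by
  obtain ⟨t₀, ht₀⟩ := pool_wins
  refine ⟨max t₀ 1, fun t ht => ?_⟩
  have ht1 : 1 ≤ t := (le_max_right _ _).trans ht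
  have ht0 := ht₀ t ((le_max_left _ _).trans ht)
  set N := (2 * t) * (64 * t * 2 ^ t) with hN
  have h2t : 1 ≤ 2 ^ t := Nat.one_le_two_pow
  have hNge : 9 * 2 ^ t ≤ N := by
    rw [hN]
    have h1 : 1 ≤ t * t := Nat.one_le_iff_ne_zero.mpr (by positivity)
    calc 9 * 2 ^ t ≤ 128 * 2 ^ t := by omega
      _ = 128 * (1 * 2 ^ t) := by ring
      _ ≤ 128 * ((t * t) * 2 ^ t) := by gcongr
      _ = 2 * t * (64 * t * 2 ^ t) := by ring
  have hpl := pl_eq t N t
  have hplle : 2 * pl t N t ≤ 4 * 2 ^ t * N := by
    have h1 : 2 ^ t * (N + 9 * 2 ^ t) ≤ 2 ^ t * (N + N) := Nat.mul_le_mul_left _ (by omega)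
    have h2 : 2 ^ t * (N + N) = 2 * (2 ^ t * N) := by ring
    have h3 : 4 * 2 ^ t * N = 4 * (2 ^ t * N) := by ring
    omega
  have hw := chain_phase (T := t) (N := N) (q := 3 * t) (r := 2 * t) hNge
    (fun P hP B hB => ht0 P hP B (by
      calc 8 * B.card ≤ 8 * (4 * 2 ^ t * N) := Nat.mul_le_mul_left _ hB
        _ = (64 * t * 2 ^ t) ^ 2 := by rw [hN]; ring))
    t (range (pl t N t)) ∅ ∅ ∅ (card_range _) (disjoint_empty_left _)
    (by rw [card_empty]; ring) (empty_inter _) (by simp) (by rw [card_empty]; omega)
  apply makerWins_of_win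
  refine hw.mono _ ?_
  calc N ^ 2 + 2 * pl t N t ≤ N ^ 2 + 4 * 2 ^ t * N := by omega
    _ ≤ N ^ 2 + N * N := by
      apply Nat.add_le_add_left
      apply Nat.mul_le_mul_right
      omega
    _ = 2 ^ 15 * t ^ 4 * (2 ^ t) ^ 2 := by rw [hN]; ring
    _ = 2 ^ 15 * t ^ 4 * 4 ^ t := by rw [← pow_mul, mul_comm t 2, pow_mul]; norm_num

end Pool.Agent.N451.Move
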